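import Mathlib

/-!
# CGB / Half (helper56)

Groups of class at most two in which squaring is a bijection modulo the centre: every congruence is
a congruence of the abelian group with the operation `a b D(a, b)`, `D(a, b) = [b, s(a)]`, where
`s(a)` is a square root of `a` modulo the centre.
-/

set_option autoImplicit false

namespace Pool.Agent.CGB

universe u

open scoped commutatorElement

/-- `G` with another operation -/
def SynH (G : Type u) : Type u := G

theorem half {G : Type u} [Group G]
    (hc : ∀ a b c : G, (a * b * a⁻¹ * b⁻¹) * c = c * (a * b * a⁻¹ * b⁻¹))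
    (s : G → G) (hs : ∀ x g : G, x⁻¹ * (s x * s x) * g = g * (x⁻¹ * (s x * s x)))
    (hz : ∀ x : G, (∀ g : G, x * x * g = g * (x * x)) → ∀ g : G, x * g = g * x) :
    ∃ (B : Type u) (_ : CommGroup B) (π : B → G), Function.Surjective π ∧
      ∀ (c : Con G) (x y z w : B), c (π x) (π y) → c (π z) (π w) →
        c (π (x * z)) (π (y * w)) := by
  -- the commutator
  obtain ⟨C, hC⟩ : ∃ C : G → G → G, ∀ a b, C a b = a * b * a⁻¹ * b⁻¹ :=
    ⟨fun a b => a * b * a⁻¹ * b⁻¹, fun a b => rfl⟩
  have hcc : ∀ a b g : G, C a b * g = g * C a b := fun a b g => by rw [hC]; exact hc a b g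
  have hba : ∀ a b : G, b * a = (C a b)⁻¹ * (a * b) := fun a b => by rw [hC]; group
  have hinv : ∀ a b : G, C b a = (C a b)⁻¹ := fun a b => by rw [hC, hC]; group
  have hci : ∀ a b g : G, (C a b)⁻¹ * g = g * (C a b)⁻¹ := fun a b g => by
    rw [← hinv]; exact hcc b a g
  -- bilinearity
  have hl : ∀ a b d : G, C (a * b) d = C a d * C b d := by
    intro a b d
    have e1 : C (a * b) d = a * (C b d) * (d * a⁻¹ * d⁻¹) := by rw [hC, hC]; group
    rw [e1, ← hcc b d a]
    have e2 : C b d * a * (d * a⁻¹ * d⁻¹) = C b d * C a d := by rw [hC a d]; group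
    rw [e2, hcc b d _]
  have hr : ∀ a b d : G, C a (b * d) = C a b * C a d := by
    intro a b d
    rw [hinv (b * d) a, hl, mul_inv_rev, ← hinv, ← hinv, hcc a d _]
  -- central elements
  have hc1 : ∀ a b : G, a * b = b * a → C a b = 1 := by
    intro a b h
    rw [hC, h]
    group
  have h1c : ∀ a b : G, C a b = 1 → a * b = b * a := by
    intro a b h
    have e : b * a = (C a b)⁻¹ * (a * b) := hba a b
    rw [h, inv_one, one_mul] at e
    exact e.symm
  -- the square root
  have hsq : ∀ x d : G, C (s x) d * C (s x) d = C x d := by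
    intro x d
    have e1 : C (x * (x⁻¹ * (s x * s x))) d = C x d * C (x⁻¹ * (s x * s x)) d := hl _ _ _
    rw [hc1 _ _ (hs x d), mul_one, mul_inv_cancel_left, hl] at e1
    exact e1
  have hcent : ∀ t : G, (∀ d, C t d * C t d = 1) → ∀ d, C t d = 1 := by
    intro t h d
    apply hc1
    apply hz t
    intro g
    apply h1c
    rw [hl]
    exact h g
  -- `s` is multiplicative modulo the centre
  have hsm : ∀ a b d : G, C (s (a * b)) d = C (s a) d * C (s b) d := by
    intro a b d
    have e0 : ∀ t g : G, C t⁻¹ g = (C t g)⁻¹ := by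
      intro t g
      have e1 : C (t⁻¹ * t) g = C t⁻¹ g * C t g := hl _ _ _
      rw [inv_mul_cancel, hc1 1 g (by rw [one_mul, mul_one])] at e1
      exact eq_inv_of_mul_eq_one_left e1.symm
    have key : ∀ g, C (s (a * b) * (s a * s b)⁻¹) g = 1 := by
      apply hcent
      intro g
      have e2 : C (s (a * b) * (s a * s b)⁻¹) g =
          C (s (a * b)) g * ((C (s a) g * C (s b) g))⁻¹ := by
        rw [hl, e0, hl]
      rw [e2]
      have e3 : C (s (a * b)) g * C (s (a * b)) g =
          (C (s a) g * C (s b) g) * (C (s a) g * C (s b) g) := by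
        rw [hsq, hl, ← hsq a g, ← hsq b g]
        have e4 : C (s a) g * (C (s b) g * C (s b) g) = C (s b) g * C (s b) g * C (s a) g := by
          rw [hcc]
        calc C (s a) g * C (s a) g * (C (s b) g * C (s b) g)
            = C (s a) g * (C (s a) g * C (s b) g) * C (s b) g := by simp only [mul_assoc]
          _ = C (s a) g * (C (s b) g * C (s a) g) * C (s b) g := by rw [hcc (s a) g (C (s b) g)]
          _ = _ := by simp only [mul_assoc]
      calc C (s (a * b)) g * (C (s a) g * C (s b) g)⁻¹ *
            (C (s (a * b)) g * (C (s a) g * C (s b) g)⁻¹)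
          = C (s (a * b)) g * ((C (s a) g * C (s b) g)⁻¹ * C (s (a * b)) g) *
              (C (s a) g * C (s b) g)⁻¹ := by simp only [mul_assoc]
        _ = C (s (a * b)) g * (C (s (a * b)) g * (C (s a) g * C (s b) g)⁻¹) *
              (C (s a) g * C (s b) g)⁻¹ := by
            rw [← hcc (s (a * b)) g ((C (s a) g * C (s b) g)⁻¹)]
        _ = (C (s (a * b)) g * C (s (a * b)) g) * ((C (s a) g * C (s b) g)⁻¹ *
              (C (s a) g * C (s b) g)⁻¹) := by simp only [mul_assoc]
        _ = 1 := by rw [e3]; group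
    have e5 := key d
    rw [hl, e0, hl] at e5
    exact mul_inv_eq_one.1 e5
  -- the form `D`
  obtain ⟨D, hD⟩ : ∃ D : G → G → G, ∀ a b, D a b = C b (s a) := ⟨fun a b => C b (s a), fun a b => rfl⟩
  have hDc : ∀ a b g : G, D a b * g = g * D a b := fun a b g => by rw [hD]; exact hcc _ _ _
  have hDinv : ∀ a b : G, D a b = (C (s a) b)⁻¹ := fun a b => by rw [hD]; exact hinv _ _
  have hDl : ∀ a b d : G, D (a * b) d = D a d * D b d := by
    intro a b d
    rw [hDinv, hDinv, hDinv, hsm, mul_inv_rev, hci (s b) d]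
  have hDr : ∀ a b d : G, D a (b * d) = D a b * D a d := by
    intro a b d
    rw [hD, hD, hD, hl]
  have hDs : ∀ a b : G, D a b = (D b a)⁻¹ := by
    intro a b
    have e1 : D a b = C (s b) (s a) * C (s b) (s a) := by rw [hD, hsq]
    have e2 : D b a = C (s a) (s b) * C (s a) (s b) := by rw [hD, hsq]
    rw [e1, e2, mul_inv_rev, ← hinv]
  have hDD : ∀ a b : G, D a b * D a b = (C a b)⁻¹ := by
    intro a b
    rw [hDinv, ← mul_inv_rev, hsq]
  have hDz : ∀ z d : G, (∀ g, z * g = g * z) → D z d = 1 := by
    intro z d h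
    rw [hDinv, hcent (s z) (fun g => by rw [hsq]; exact hc1 _ _ (h g)) d, inv_one]
  have hDz' : ∀ z d : G, (∀ g, z * g = g * z) → D d z = 1 := by
    intro z d h
    rw [hD]
    exact hc1 _ _ (h _)
  obtain ⟨m, hm⟩ : ∃ m : G → G → G, ∀ a b, m a b = a * b * D a b :=
    ⟨fun a b => a * b * D a b, fun a b => rfl⟩
  have hassoc : ∀ a b d : G, m (m a b) d = m a (m b d) := by
    intro a b d
    have e1 : D (a * b * D a b) d = D a d * D b d := by
      rw [hDl, hDz _ d (hDc a b), mul_one, hDl]
    have e2 : D a (b * d * D b d) = D a b * D a d := by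
      rw [hDr, hDz' _ a (hDc b d), mul_one, hDr]
    rw [hm, hm, hm, hm, e1, e2]
    calc a * b * D a b * d * (D a d * D b d)
        = a * b * (D a b * d) * (D a d * D b d) := by simp only [mul_assoc]
      _ = a * b * (d * D a b) * (D a d * D b d) := by rw [hDc]
      _ = a * b * d * ((D a b * D a d) * D b d) := by simp only [mul_assoc]
      _ = a * b * d * (D b d * (D a b * D a d)) := by rw [← hDc b d (D a b * D a d)]
      _ = a * (b * d * D b d) * (D a b * D a d) := by simp only [mul_assoc]
  have hcomm : ∀ a b : G, m a b = m b a := by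
    intro a b
    rw [hm, hm, hba a b, ← hDD, hDs b a]
    calc a * b * D a b = D a b * (a * b) := by rw [← hDc]
      _ = D a b * (D a b * (D a b)⁻¹) * (a * b) := by rw [mul_inv_cancel, mul_one]
      _ = D a b * D a b * ((D a b)⁻¹ * (a * b)) := by simp only [mul_assoc]
      _ = D a b * D a b * ((a * b) * (D a b)⁻¹) := by
          rw [← hDs b a, hDc b a (a * b)]
      _ = D a b * D a b * (a * b) * (D a b)⁻¹ := by simp only [mul_assoc]
  have hm1 : ∀ a : G, m 1 a = a := fun a => by
    rw [hm, hDz 1 a (fun g => by rw [one_mul, mul_one]), one_mul, mul_one]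
  have hDaa : ∀ a : G, D a a = 1 := by
    intro a
    rw [hD, ← hsq, hc1 _ _ rfl, mul_one]
  have hminv : ∀ a : G, m a⁻¹ a = 1 := by
    intro a
    have e1 : D (a⁻¹ * a) a = D a⁻¹ a * D a a := hDl _ _ _
    rw [inv_mul_cancel, hDz 1 a (fun g => by rw [one_mul, mul_one]), hDaa, mul_one] at e1
    rw [hm, ← e1]
    simp
  let B : CommGroup (SynH G) :=
    { mul := m
      mul_assoc := hassoc
      one := (1 : G)
      one_mul := hm1
      mul_one := fun a => (hcomm a 1).trans (hm1 a)
      inv := fun a => show G from (show G from a)⁻¹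
      inv_mul_cancel := hminv
      mul_comm := hcomm }
  have hDcon : ∀ (c : Con G) (a a' b b' : G), c a a' → c b b' → c (D a b) (D a' b') := by
    intro c a a' b b' h h'
    have f1 : c (D a b) (D a b') := by
      rw [hD, hD, hC, hC]
      exact c.mul (c.mul (c.mul h' (c.refl _)) (c.inv h')) (c.refl _)
    have f2 : c (D a b') (D a' b') := by
      rw [hDs a b', hDs a' b', hD, hD, hC, hC]
      exact c.inv (c.mul (c.mul (c.mul h (c.refl _)) (c.inv h)) (c.refl _))
    exact c.trans f1 f2
  have aux : ∀ (c : Con G) (a a' b b' : G), c a a' → c b b' → c (m a b) (m a' b') := by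
    intro c a a' b b' h h'
    rw [hm, hm]
    exact c.mul (c.mul h h') (hDcon c _ _ _ _ h h')
  refine ⟨SynH G, B, fun x => x, fun x => ⟨x, rfl⟩, ?_⟩
  intro c a a' b b' h h'
  exact aux c a a' b b' h h'

end Pool.Agent.CGB
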